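import Pool.Agent.H877R3.Join.PP

/-!
# Oracles which make `P` and `PSPACE` equal, while relative to their joins both inclusions are
proper

Above every oracle `C` there are infinitely many oracles `A 0, A 1, A 2, ...`, each of which makes
`P`, `PP` and `PSPACE` equal, such that relative to the join of any two of them the union of `NP`
and `coNP` does not contain `BPP`, and so is different from `PP`, and `PP` does not contain all
parities of functions in `#P`, and so is different from `PSPACE`.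
-/

namespace Pool.Agent.Results.MP_153864_lc.BothProperInJoins

open Pool.Agent.NPC Pool.Agent.H620R2.Gauge Pool.Agent.H877R3.Join
open Pool.Agent.H943R3.PP (IsPP)

theorem result (C : Oracle) : ∃ A : ℕ → Oracle,
    (∀ i, Reduces {x | C x = true} {x | A i x = true} ∧
      (∀ L, IsPSPACE (A i) L → Reduces L {x | A i x = true}) ∧
      (∀ L, IsP (A i) L ↔ IsPP (A i) L) ∧ ∀ L, IsP (A i) L ↔ IsPSPACE (A i) L) ∧
    ∀ i j, i ≠ j →
      (∃ L, IsPP (join (A i) (A j)) L ∧ IsBPP (join (A i) (A j)) L ∧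
        ¬ Pool.Agent.H620R2.Gauge.IsNP (join (A i) (A j)) L ∧
        ¬ Pool.Agent.H620R2.Gauge.IsNP (join (A i) (A j)) Lᶜ) ∧
      ∃ f, IsSharpP (join (A i) (A j)) f ∧ IsPSPACE (join (A i) (A j)) {x | Odd (f x)} ∧
        ¬ IsPP (join (A i) (A j)) {x | Odd (f x)} := by
  obtain ⟨A, h1, h2⟩ := main4 C
  refine ⟨A, fun i => ⟨(h1 i).1, (h1 i).2.1, pp_collapse (h1 i).2.2, (h1 i).2.2⟩,
    fun i j hij => ⟨?_, (h2 i j hij).2⟩⟩
  obtain ⟨L, h3, h4, h5⟩ := (h2 i j hij).1
  exact ⟨L, isPP_of_isBPP h3, h3, h4, h5⟩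

end Pool.Agent.Results.MP_153864_lc.BothProperInJoins
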