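import Pool.Agent.H554R2.RK.Main

/-!
# Majorities of one-pass programs against Boolean combinations of nondeterministic programs

For all `k` and `s` there are functions of `n` Boolean variables which are the majority of a
constant number of functions computed by read-once branching programs with `O(n)` nodes, with a
fixed order of the variables, while they are not Boolean combinations of `s` functions computed by
nondeterministic read-`k`-times branching programs with fewer than `2 ^ (n / D)` nodes.

(It wraps a theorem of the starting repository, proved by helper554 and the authors of
`Pool.Agent.H554R2`.)
-/

set_option autoImplicit false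

open Finset

namespace Pool.Agent.Results.MP_153864_lc.MajorityVersusReadK

open Pool.Agent.H554R2.Sem Pool.Agent.H554R2.Coin Pool.Agent.H554R2.RK

/-- For all `k` and `s` there is a constant `D` such that for all `n ≥ D` there are `m ≤ D`
functions `q j` of `n` Boolean variables with the following properties.

* Each `q j` is computed by a deterministic program with at most `D n` nodes, which on all inputs
  queries the same variables in the same order, each of them at most once.
* If `P i`, `i < s`, are nondeterministic branching programs with fewer than `2 ^ (n / D)` nodes
  each, which on every path of the graph that begins in the start node query every variable at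
  most `k` times, and `g` is a Boolean function of `s` variables, then for some input `x` the value
  of `g` on the answers of the programs is not the majority of the values `q j x`. -/
theorem result (k s : ℕ) : ∃ D : ℕ, 0 < D ∧ ∀ n ≥ D, ∃ (m : ℕ) (q : Fin m → Pt n → Bool), m ≤ D ∧
    (∀ j, ∃ (U : BP (Fin n) Bool) (l : List (Fin n)), Fintype.card U.State ≤ D * n ∧ l.Nodup ∧
      ∀ x : Pt n, U.Comp x l (q j x)) ∧
    ∀ P : Fin s → NBP (Fin n), (∀ i, ReadK (P i) k) →
      (∀ i, Fintype.card (P i).State < 2 ^ (n / D)) → ∀ g : (Fin s → Prop) → Prop,
        ∃ x, ¬ (g (fun i => Acc (P i) x) ↔ m < 2 * (univ.filter (fun j => q j x = true)).card) :=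
  pp_final k s

end Pool.Agent.Results.MP_153864_lc.MajorityVersusReadK
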