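import Pool.Agent.H440P.Rob2
import Pool.Agent.H440P.Fin
import Pool.Agent.H943R3.PP.N1
import Pool.Agent.H620R2.Gauge.U2

/-!
# The sets on which random changes of an oracle separate `NP ∪ coNP`, `PP` and `PSPACE`

For a set `D` of strings the following are equivalent:

* `D` is not sparse;
* for every oracle `B`, if the part of `B` in `D` is replaced by a random subset of `D`, then
  relative to the new oracle, with probability one, some language in `PP` is neither in `NP` nor in
  `coNP` with polynomial advice;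
* the same with a language in `PSPACE` which is not in `PP^PH` with polynomial advice.

In this case, with probability one, both inclusions `NP ∪ coNP ⊆ PP ⊆ PSPACE` are proper. If `D` is
sparse then there is an oracle `B` such that after every change of `B` on `D` every language in
`PSPACE` is in `P` with polynomial advice.
-/

set_option autoImplicit false

namespace Pool.Agent.Results.MP_153864_lc.NonSparseModifications

open Pool.Agent.H249R3.Sub Pool.Agent.H620R2.Gauge Pool.Agent.H943R3.PP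
open Pool.Agent.H628R3.RO (randomOracle)

theorem result (D : Set (List Bool)) :
    (¬ Sparse D ↔ ∀ B : Oracle, ∀ᵐ R ∂randomOracle, ∃ L : Set (List Bool),
      IsPP (patch D R B) L ∧ ¬ WithAdvice (IsNP (patch D R B)) L ∧
        ¬ WithAdvice (IsNP (patch D R B)) Lᶜ) ∧
    (¬ Sparse D ↔ ∀ B : Oracle, ∀ᵐ R ∂randomOracle, ∃ L : Set (List Bool),
      IsPSPACE (patch D R B) L ∧ ¬ WithAdvice (IsPPPH (patch D R B)) L) ∧
    (¬ Sparse D → ∀ B : Oracle, ∀ᵐ R ∂randomOracle,
      (∃ L : Set (List Bool), IsPP (patch D R B) L ∧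
        ¬ (IsNP (patch D R B) L ∨ IsNP (patch D R B) Lᶜ)) ∧
      (∃ L : Set (List Bool), IsPSPACE (patch D R B) L ∧ ¬ IsPP (patch D R B) L)) ∧
    (Sparse D → ∃ B : Oracle, ∀ (R : Oracle) (L : Set (List Bool)),
      IsPSPACE (patch D R B) L → WithAdvice (IsP (patch D R B)) L) := by
  have h1 : ¬ Sparse D → ∀ B : Oracle, ∀ᵐ R ∂randomOracle, ∃ L : Set (List Bool),
      IsPP (patch D R B) L ∧ ¬ IsPHpoly (patch D R B) L := by
    intro hD B
    filter_upwards [ae_patch D B hD] with R hR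
    exact ⟨_, Pool.Agent.H440P.exCyl_pp _, fun h => hR.2.2 (Pool.Agent.H440P.isPHpoly_cyl h)⟩
  have h2 : ¬ Sparse D → ∀ B : Oracle, ∀ᵐ R ∂randomOracle, ∃ L : Set (List Bool),
      IsPSPACE (patch D R B) L ∧ ¬ WithAdvice (IsPPPH (patch D R B)) L := by
    intro hD B
    filter_upwards [ae_patch D B hD, Pool.Agent.H440P.ae_patch2 D B hD] with R hR hR2
    exact ⟨_, hR.2.1, hR2⟩
  have hc : ∀ (A : Oracle) (L : Set (List Bool)), WithAdvice (IsNP A) Lᶜ → IsPHpoly A L := by
    rintro A L ⟨L', f, p, g1, g2, g3⟩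
    refine ⟨L'ᶜ, f, p, isPH_of_isNP_compl (by rw [compl_compl]; exact g1), g2, fun x => ?_⟩
    have := g3 x
    rw [Set.mem_compl_iff] at this ⊢
    rw [← this, not_not]
  refine ⟨⟨fun hD B => ?_, fun h hD => ?_⟩, ⟨h2, fun h hD => ?_⟩, fun hD B => ?_,
    Pool.Agent.H440P.Rob.robust_pspace D⟩
  · filter_upwards [h1 hD B] with R hR
    obtain ⟨L, hL, hL'⟩ := hR
    refine ⟨L, hL, fun h => hL' ?_, fun h => hL' (hc _ _ h)⟩
    exact Pool.Agent.H440P.Rob.WithAdvice.mono (fun L hL => isPH_of_isNP hL) h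
  · obtain ⟨B, hB⟩ := Pool.Agent.H440P.Rob.robust_pspace D hD
    obtain ⟨R, L, hL, hL2, _⟩ := (h B).exists
    refine hL2 (Pool.Agent.H440P.Rob.WithAdvice.mono (fun L hL => ?_)
      (hB R L (isPSPACE_of_isPP hL)))
    exact Pool.Agent.H440P.Rob.isNP_of_isP hL
  · obtain ⟨B, hB⟩ := Pool.Agent.H440P.Rob.robust_pspace D hD
    obtain ⟨R, L, hL, hL2⟩ := (h B).exists
    exact hL2 (Pool.Agent.H440P.Rob.WithAdvice.mono
      (fun L hL => isPPPH_of_isPP (isPP_of_isP hL)) (hB R L hL))
  · filter_upwards [h1 hD B, h2 hD B] with R hR hR2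
    obtain ⟨L, hL, hL'⟩ := hR
    obtain ⟨M, hM, hM'⟩ := hR2
    refine ⟨⟨L, hL, ?_⟩, ⟨M, hM, fun h => hM' (withAdvice_of_isPPPH (isPPPH_of_isPP h))⟩⟩
    rintro (h | h)
    · exact hL' (isPH_of_isNP h).isPHpoly
    · exact hL' (isPH_of_isNP_compl h).isPHpoly

end Pool.Agent.Results.MP_153864_lc.NonSparseModifications
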