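import Pool.Agent.H334R5.Ct.Final

/-!
# PP and NP ∪ coNP: refuting one threshold pattern

The theorem says that `PP = NP ∪ coNP` (equivalently `PP = NP`) if and only if, for some `PP`-hard
set `A`, every list `x₁, …, xₘ` of polynomially many strings of which exactly the first `j` belong
to `A` has a short proof that its number is not `k`, for one number `k ≠ j`.

Polynomial time is Mathlib's `Turing.TM2ComputableInPolyTime` (through `Pool.Agent.NPC.PolyTime`).
The class `PP` (`InPPc`) is in `Pool.Agent.H578R2.Med.PP`, `PPHard` is in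
`Pool.Agent.H334R5.Ct.Stmts`, `Pattern` is in `Pool.Agent.H334R5.Nd.Defs`, and `Refuter2` is in
`Pool.Agent.H334R5.Ps.Stmts`.
-/

set_option autoImplicit false

namespace Pool.Agent.Results.MP_153864_lc.RefutersNP

open Pool.Agent.NPC Pool.Agent.NPC.Med Pool.Agent.H334R5.Ps Pool.Agent.H334R5.Ct

/-- `PP ⊆ NP ∪ coNP` if and only if for some `PP`-hard set `A` there is a nondeterministic
polynomial-time algorithm which refutes, for every list of `m ≥ q(n)` strings of length at most `n`
that has a threshold pattern, one of the statements `x₁, …, xₖ ∈ A ∧ xₖ₊₁, …, xₘ ∉ A`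
(`0 ≤ k ≤ m`), and which never refutes a true statement of this form; moreover `PP ⊆ NP` in this
case. -/
theorem result :
    ((∃ (A : Set (List Bool)) (q ℓ : Polynomial ℕ) (E : List (List Bool) → List Bool → ℕ),
      PPHard A ∧ Refuter2 A q ℓ E) ↔ ∀ L : Set (List Bool), InPPc L → InNP L) ∧
    ((∀ L : Set (List Bool), InPPc L → InNP L) ↔
      ∀ L : Set (List Bool), InPPc L → InNP L ∨ InNP Lᶜ) :=
  pp_np_iff

end Pool.Agent.Results.MP_153864_lc.RefutersNP
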